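import Pool.Agent.H62.OWN.Jvc

/-!
# Visible labels are not constant along the lines

`VPol`: a visible polynomial label of the coordinate `c i` over a chain of labels (a function of
the exact point), of degree at most `K`, through the points up to `2 ^ (-p)`, with natural size.
`vis_ev`: in a class with the thresholds of the chain labels, an event on which a visible label,
with a precision above the threshold of the balls, is near a function of the line and of the window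
is small. `vis_cls`: the visible labels of two independent samples of the same line and window are
not near, with probability near one.
-/

set_option autoImplicit false

namespace Pool.VIS24

open Finset Real MvPolynomial
open Pool.Agent.H49.Ent Pool.Agent.H32.Dense Pool.STK Pool.KA Pool.KSAT Pool.K2S Pool.PB Pool.S6C
open Pool.GEN Pool.CHT
open Pool.LBT (ThrOf)
open Pool.KM7 (P2)
open Pool.JVE (pe_sum pair_sel chN_false)

variable {m : ℕ}

/-- **A visible polynomial label** of `c i` over the labels `G` of the coordinates before it: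
degree at most `K`, precision `p`, natural size up to `2 ^ e` on the natural boxes of radius
`2 ^ (-a)`. -/
structure VPol {J : ℕ} (F : Fam m J) (c : ℕ → Fin m) (i K a e p : ℕ) (g : ℕ → ℕ)
    (G : PtT F → ℕ → MvPolynomial (Option (Fin m)) ℝ) (A : F.Ω → Prop)
    (Gi : PtT F → MvPolynomial (Option (Fin m)) ℝ) : Prop where
  deg : ∀ y, (Gi y).totalDegree ≤ K
  dep : ∀ y, DepC c i (Gi y)
  pos : ∀ ω, A ω → |F.x ω (c i) - eval (bt F ω) (Gi (ptr F J ω))| ≤ 1 / 2 ^ p
  lip : ∀ ω, A ω → ∀ b : Option (Fin m) → ℝ, NBx c (G (ptr F J ω)) g a (F.t ω) i b →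
    ∀ l < i, |eval b (pderiv (some (c l)) (Gi (ptr F J ω)))| ≤
      2 ^ (e + nlp (fun j => if j < i then g j else p) l i)

/-- The two polynomials are near on the natural box of the sample. -/
def Nr {J : ℕ} (F : Fam m J) (c : ℕ → Fin m) (i a p : ℕ) (g : ℕ → ℕ)
    (G : PtT F → ℕ → MvPolynomial (Option (Fin m)) ℝ) (ω : F.Ω)
    (U V : MvPolynomial (Option (Fin m)) ℝ) : Prop :=
  ∀ b : Option (Fin m) → ℝ, NBx c (G (ptr F J ω)) g a (F.t ω) i b →
    |eval b U - eval b V| ≤ 1 / 2 ^ p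

theorem VPol.sub {J : ℕ} {F : Fam m J} {c : ℕ → Fin m} {i K a e p : ℕ} {g : ℕ → ℕ}
    {G : PtT F → ℕ → MvPolynomial (Option (Fin m)) ℝ} {A B : F.Ω → Prop}
    {Gi : PtT F → MvPolynomial (Option (Fin m)) ℝ} (h : VPol F c i K a e p g G A Gi)
    (hB : Sub B A) : VPol F c i K a e p g G B Gi :=
  ⟨h.deg, h.dep, fun ω hω => h.pos ω (hB ω hω), fun ω hω => h.lip ω (hB ω hω)⟩

/-- **Ball labels from visible labels which are constant along the lines**, for one family. The
line side is the visible label of a selected sample. -/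
theorem vis_fam {J : ℕ} {F : Fam m J} {c : ℕ → Fin m} {i a w e p K : ℕ} {Kv g : ℕ → ℕ}
    {B : F.Ω → Prop} {G : PtT F → ℕ → MvPolynomial (Option (Fin m)) ℝ}
    {H : LnT F → ℕ → MvPolynomial (Option (Fin m)) ℝ}
    {Gi : PtT F → MvPolynomial (Option (Fin m)) ℝ} {sel : LnT F → F.Ω}
    (hKv : ∀ l, Kv l ≤ K) (hch : ChOK F c i Kv a w e g B G H)
    (hG : VPol F c i K a e p g G B Gi)
    (hc : ∀ ω, B ω → Nr F c i a p g G ω (Gi (ptr F J ω)) (Gi (ptr F J (sel (slam F w ω))))) :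
    ChOK F c (i + 1) (fun _ => K) a w e (fun j => if j < i then g j else p) B
      (fun y j => if j < i then G y j else Gi y)
      (fun s j => if j < i then H s j else Gi (ptr F J (sel s))) := by
  have bx : ∀ {y : PtT F} {t : ℝ} {l : ℕ} {b : Option (Fin m) → ℝ}, l ≤ i →
      NBx c (fun j => if j < i then G y j else Gi y)
        (fun j => if j < i then g j else p) a t l b → NBx c (G y) g a t l b := by
    intro y t l b hl hb
    refine ⟨hb.1, fun j hj => ?_⟩
    have h1 := hb.2 j hj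
    simp only [if_pos (show j < i by omega)] at h1
    exact h1
  refine ⟨fun y j => ?_, fun s j => ?_, fun y j => ?_, fun s j => ?_, fun ω hω j hj => ?_,
    fun ω hω j hj b hb => ?_, fun ω hω j hj b hb l hl => ?_⟩
  · show (if j < i then G y j else Gi y).totalDegree ≤ K
    split_ifs with h
    · exact (hch.degG y j).trans (hKv j)
    · exact hG.deg y
  · show (if j < i then H s j else Gi (ptr F J (sel s))).totalDegree ≤ K
    split_ifs with h
    · exact (hch.degH s j).trans (hKv j)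
    · exact hG.deg _
  · show DepC c j (if j < i then G y j else Gi y)
    split_ifs with h
    · exact hch.depG y j
    · exact (hG.dep y).mono (not_lt.1 h)
  · show DepC c j (if j < i then H s j else Gi (ptr F J (sel s)))
    split_ifs with h
    · exact hch.depH s j
    · exact (hG.dep _).mono (not_lt.1 h)
  · show |F.x ω (c j) - eval (bt F ω) (if j < i then G (ptr F J ω) j else
      Gi (ptr F J ω))| ≤ 1 / 2 ^ (if j < i then g j else p)
    by_cases h : j < i
    · rw [if_pos h, if_pos h]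
      exact hch.pos ω hω j h
    · have hji : j = i := by omega
      subst hji
      rw [if_neg h, if_neg h]
      exact hG.pos ω hω
  · have hb' := bx (by omega) hb
    show |eval b (if j < i then G (ptr F J ω) j else Gi (ptr F J ω)) -
      eval b (if j < i then H (slam F w ω) j else Gi (ptr F J (sel (slam F w ω))))| ≤
        1 / 2 ^ (if j < i then g j else p)
    by_cases h : j < i
    · rw [if_pos h, if_pos h, if_pos h]
      exact hch.agr ω hω j h b hb'
    · have hji : j = i := by omega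
      subst hji
      rw [if_neg h, if_neg h, if_neg h]
      exact hc ω hω b hb'
  · have hb' := bx (by omega) hb
    show |eval b (pderiv (some (c l)) (if j < i then G (ptr F J ω) j else
      Gi (ptr F J ω)))| ≤ 2 ^ (e + nlp (fun j => if j < i then g j else p) l j)
    by_cases h : j < i
    · rw [if_pos h]
      refine (hch.lip ω hω j h b hb' l hl).trans (pow_le_pow_right₀ (by norm_num) ?_)
      rw [nlp_congr (g := g) (g' := fun j => if j < i then g j else p) (l := l) (i := j)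
        fun x hx => (if_pos (by omega)).symm]
    · have hji : j = i := by omega
      subst hji
      rw [if_neg h]
      exact hG.lip ω hω b hb' l hl

variable {θ : ℝ} {S : PCl m} {P : List (Fin m) × Fin m → ℝ → ℝ → ℝ}

/-- The events of a class with thresholds have positive mass. -/
theorem pos_thr (hP : ThrOf (chsys m θ) S P) (c : ℕ → Fin m) (i : ℕ) (a w : ℚ) (e h : ℝ)
    (hw : 0 ≤ w) (hwa : w ≤ a) (ha : a ≤ 1) (he : e < θ * w) (hh : 0 < h)
    (h1 : bet P c i a w + h ≤ 1) : Bas S (fun _ F A => 0 < Pe F.p A) := by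
  obtain ⟨τ, hτ, J₁, hno⟩ := no_unif hP c i (fun _ => 0) a w e h hw hwa ha he hh h1
  refine ⟨τ, hτ, J₁, fun J hJ F A hA => ?_⟩
  by_contra hcon
  have h0 : Pe F.p A = 0 := le_antisymm (not_lt.1 hcon) (Pe_nonneg F.isLaw A)
  have hA' : S.St (τ + 0) J F (fun _ => False) :=
    S.res le_rfl hA (fun ω hω => hω.elim) (by
      rw [h0, mul_zero]
      exact Pe_nonneg F.isLaw _)
  rw [add_zero] at hA'
  refine hno J hJ F _ hA' 0 0 0 (fun _ => J) le_rfl (Nat.zero_le _) (Nat.zero_le _)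
    (Nat.zero_le _) (fun _ _ => le_rfl) ?_ (chN_false F _ _ _ _ _ _ _)
  have h2 : ⌊(bet P c i a w + h) * J⌋₊ ≤ J := by
    refine Nat.floor_le_of_le ?_
    have hJ0 : (0 : ℝ) ≤ J := Nat.cast_nonneg J
    nlinarith only [h1, hJ0]
  show _ + 0 ≤ J + _
  omega

/-- **Events on which a visible label is constant along the lines are small.** -/
theorem vis_ev (hP : ThrOf (chsys m θ) S P) (c : ℕ → Fin m) (i K : ℕ) (a w : ℚ) (e h : ℝ)
    (hw : 0 ≤ w) (hwa : w ≤ a) (ha : a ≤ 1) (he : e < θ * w) (hh : 0 < h)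
    (h1 : bet P c i a w + h ≤ 1) :
    ∃ δ : ℝ, 0 < δ ∧ Bas S (fun J F A => ∀ (a₀ w₀ e₀ p : ℕ) (Kv g : ℕ → ℕ)
      (G : PtT F → ℕ → MvPolynomial (Option (Fin m)) ℝ)
      (H : LnT F → ℕ → MvPolynomial (Option (Fin m)) ℝ)
      (Gi : PtT F → MvPolynomial (Option (Fin m)) ℝ),
      w₀ ≤ a₀ → a₀ ≤ ⌊(a : ℝ) * J⌋₊ → w₀ ≤ ⌊(w : ℝ) * J⌋₊ → e₀ ≤ ⌊e * J⌋₊ → (∀ l, Kv l ≤ K) →
      (∀ l < i, g l ≤ J) → p ≤ J → ⌊(bet P c i a w + h) * J⌋₊ + a₀ ≤ p + ⌊(a : ℝ) * J⌋₊ →
      ∀ (B : F.Ω → Prop), Sub B A → ChOK F c i Kv a₀ w₀ e₀ g B G H →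
      VPol F c i K a₀ e₀ p g G B Gi → ∀ sel : LnT F → F.Ω,
      (∀ ω, B ω → Nr F c i a₀ p g G ω (Gi (ptr F J ω))
        (Gi (ptr F J (sel (slam F w₀ ω))))) →
      Pe F.p B ≤ Real.exp (-(δ * J)) * Pe F.p A) := by
  obtain ⟨τ, hτ, J₁, hno⟩ := no_unif hP c i (fun _ => K) a w e h hw hwa ha he hh h1
  refine ⟨τ / 2, by linarith, τ / 2, by linarith, J₁, ?_⟩
  intro J hJ F A hA a₀ w₀ e₀ p Kv g G H Gi k0 k1 k2 k3 k4 k5 k6 k7 B hBA hch hV sel hs
  by_contra hcon
  push Not at hcon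
  have hB : S.St (τ / 2 + τ / 2) J F B := S.res (by linarith) hA hBA hcon.le
  rw [add_halves] at hB
  refine hno J hJ F B hB a₀ w₀ e₀ (fun j => if j < i then g j else p) k0 k1 k2 k3
    (fun l _ => ?_) ?_ ⟨_, _, vis_fam k4 hch hV hs⟩
  · show (if l < i then g l else p) ≤ J
    split_ifs with hl
    · exact k5 l hl
    · exact k6
  · show _ ≤ (if i < i then g i else p) + _
    rw [if_neg (lt_irrefl i)]
    exact k7

/-- **Two independent samples of one line and window have different visible labels**, with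
probability near one, for every law with a bounded density on the event. -/
theorem vis_cls (hP : ThrOf (chsys m θ) S P) (c : ℕ → Fin m) (i K : ℕ) (a w : ℚ) (e h : ℝ)
    (hw : 0 ≤ w) (hwa : w ≤ a) (ha : a ≤ 1) (he : e < θ * w) (hh : 0 < h)
    (h1 : bet P c i a w + h ≤ 1) :
    ∃ δ : ℝ, 0 < δ ∧ Bas S (fun J F A => ∀ (a₀ w₀ e₀ p : ℕ) (Kv g : ℕ → ℕ)
      (G : PtT F → ℕ → MvPolynomial (Option (Fin m)) ℝ)
      (H : LnT F → ℕ → MvPolynomial (Option (Fin m)) ℝ)
      (Gi : PtT F → MvPolynomial (Option (Fin m)) ℝ),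
      w₀ ≤ a₀ → a₀ ≤ ⌊(a : ℝ) * J⌋₊ → w₀ ≤ ⌊(w : ℝ) * J⌋₊ → e₀ ≤ ⌊e * J⌋₊ → (∀ l, Kv l ≤ K) →
      (∀ l < i, g l ≤ J) → p ≤ J → ⌊(bet P c i a w + h) * J⌋₊ + a₀ ≤ p + ⌊(a : ℝ) * J⌋₊ →
      ∀ (B : F.Ω → Prop), Sub B A → ChOK F c i Kv a₀ w₀ e₀ g B G H →
      VPol F c i K a₀ e₀ p g G B Gi → ∀ (q : F.Ω → ℝ) (M : ℝ), IsLaw q → 0 ≤ M →
      (∀ ω, 0 < q ω → B ω) → (∀ ω, q ω * Pe F.p A ≤ M * F.p ω) →
      Pe (P2 q (slam F w₀)) (fun x => Nr F c i a₀ p g G x.1 (Gi (ptr F J x.1))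
        (Gi (ptr F J x.2))) ≤ M * Real.exp (-(δ * J))) := by
  classical
  obtain ⟨δ, hδ, τ, hτ, J₁, hev⟩ := vis_ev hP c i K a w e h hw hwa ha he hh h1
  obtain ⟨τ₂, hτ₂, J₂, hpos⟩ := pos_thr hP c i a w e h hw hwa ha he hh h1
  refine ⟨δ, hδ, min τ τ₂, lt_min hτ hτ₂, max J₁ J₂, ?_⟩
  intro J hJ' F A hA a₀ w₀ e₀ p Kv g G H Gi k0 k1 k2 k3 k4 k5 k6 k7 B hBA hch hV q M hq hM hqB hqM
  have hJ : J ≥ J₁ ∧ J ≥ J₂ := ⟨(le_max_left _ _).trans hJ', (le_max_right _ _).trans hJ'⟩
  have hne : Nonempty F.Ω := by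
    by_contra hcon
    rw [not_nonempty_iff] at hcon
    have h2 := hq.sum_one
    rw [Finset.univ_eq_empty, Finset.sum_empty] at h2
    exact zero_ne_one h2
  obtain ⟨sel, hsel⟩ := pair_sel hq.nonneg (slam F w₀)
    (fun ω ω' => Nr F c i a₀ p g G ω (Gi (ptr F J ω)) (Gi (ptr F J ω')))
  refine hsel.trans ?_
  obtain ⟨B', hB'⟩ : ∃ B' : F.Ω → Prop, B' = fun ω => B ω ∧
    Nr F c i a₀ p g G ω (Gi (ptr F J ω)) (Gi (ptr F J (sel (slam F w₀ ω)))) := ⟨_, rfl⟩
  have hB'B : Sub B' B := fun ω hω => by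
    rw [hB'] at hω
    exact hω.1
  have h2 := hev J hJ.1 F A (S.mono (min_le_left _ _) hA) a₀ w₀ e₀ p Kv g G H Gi k0 k1 k2 k3 k4
    k5 k6 k7 B' (fun ω hω => hBA ω (hB'B ω hω)) (hch.sub hB'B) (hV.sub hB'B) sel
    (fun ω hω => by
      rw [hB'] at hω
      exact hω.2)
  have hPA := Pe_nonneg F.isLaw A
  have h3 : Pe q (fun ω => Nr F c i a₀ p g G ω (Gi (ptr F J ω))
      (Gi (ptr F J (sel (slam F w₀ ω))))) ≤ Pe q B' := by
    rw [pe_sum, pe_sum]
    refine Finset.sum_le_sum fun ω _ => ?_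
    rcases (hq.nonneg ω).eq_or_lt with h0 | h0
    · rw [← h0]
      simp
    · by_cases h4 : Nr F c i a₀ p g G ω (Gi (ptr F J ω)) (Gi (ptr F J (sel (slam F w₀ ω))))
      · rw [if_pos h4, if_pos (by rw [hB']; exact ⟨hqB ω h0, h4⟩)]
      · rw [if_neg h4]
        split_ifs
        exacts [h0.le, le_rfl]
  refine h3.trans ?_
  have h4 : Pe q B' * Pe F.p A ≤ M * Pe F.p B' := by
    rw [pe_sum q, pe_sum F.p B', Finset.sum_mul, Finset.mul_sum]
    refine Finset.sum_le_sum fun ω _ => ?_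
    split_ifs with h5
    · exact hqM ω
    · rw [zero_mul, mul_zero]
  have h5 : 0 < Pe F.p A := hpos J hJ.2 F A (S.mono (min_le_right _ _) hA)
  have h6 : Pe q B' * Pe F.p A ≤ M * (Real.exp (-(δ * J)) * Pe F.p A) :=
    h4.trans (mul_le_mul_of_nonneg_left h2 hM)
  rw [← mul_assoc] at h6
  exact le_of_mul_le_mul_right h6 h5

end Pool.VIS24

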