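import Pool.Agent.H66.D2.Cop

/-!
# K_30U, S0: the rows of the value at the centre of the tube

`row_S0`: if the own value `n` is not full on a block, given the near digits `xi` of the base, then the
value `R0` of the closed label at the centre of the tube is not full on this block, given the code `cc`
of the tube: `n - R0` is known from `cc`, `W` and `xi`, the near digits are full given the record, and
`cc`, `R0` are few bits given the record.
-/

set_option autoImplicit false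

namespace Pool.D2S0

open Finset Real
open Pool.Agent.H49.Ent Pool.Agent.H32.Dense Pool.STK

variable {Ω τ γ ζ χ : Type} [Fintype Ω]

/-- The coarse digits are a function of the fine ones. -/
theorem floor_coarse {M x : ℕ} (hx : x ≤ M) {a b : ℝ}
    (h : ⌊(2 : ℝ) ^ M * a⌋ = ⌊(2 : ℝ) ^ M * b⌋) :
    ⌊(2 : ℝ) ^ (M - x) * a⌋ = ⌊(2 : ℝ) ^ (M - x) * b⌋ := by
  have key : ∀ c : ℝ, ⌊(2 : ℝ) ^ (M - x) * c⌋ = ⌊(2 : ℝ) ^ M * c⌋ / (2 ^ x : ℕ) := by
    intro c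
    rw [← Int.floor_div_natCast]
    congr 1
    have h1 : (2 : ℝ) ^ M = 2 ^ (M - x) * 2 ^ x := by
      rw [← pow_add]
      congr 1
      omega
    rw [h1]
    push_cast
    field_simp
  rw [key, key, h]

/-- **The rows of the value at the centre of the tube.** -/
theorem row_S0 {p : Ω → ℝ} (hp : IsLaw p) (W : Ω → τ) (cc : Ω → γ) (zE : Ω → ζ) (xi : Ω → χ)
    (n R0 : Ω → ℝ) (g : γ → τ → χ → ℝ) {M x : ℕ} (hx : x ≤ M) {D L e1 e2 e3 r : ℝ}
    (hrel : ∀ ω, 0 < p ω → |n ω - R0 ω - g (cc ω) (W ω) (xi ω)| ≤ D / 2 ^ M)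
    (hW : Det p zE W)
    (hnf : CH p (fun ω => ⌊(2 : ℝ) ^ M * n ω⌋)
      (fun ω => (⌊(2 : ℝ) ^ (M - x) * n ω⌋, (xi ω, W ω))) ≤ r)
    (hup : CH p xi W ≤ L) (hfull : L - e1 ≤ CH p xi zE) (hc : CH p cc zE ≤ e2)
    (hR : CH p (fun ω => ⌊(2 : ℝ) ^ M * R0 ω⌋) zE ≤ e3) :
    CH p (fun ω => ⌊(2 : ℝ) ^ M * R0 ω⌋)
      (fun ω => (⌊(2 : ℝ) ^ (M - x) * R0 ω⌋, (cc ω, W ω))) ≤
        r + e1 + e2 + e3 + 2 * Real.log (4 * D + 5) := by
  have h0 := hp.nonneg
  have hD : 0 ≤ D := by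
    obtain ⟨ω, hω⟩ : ∃ ω, 0 < p ω := by
      by_contra hcon
      push Not at hcon
      have h1 : ∑ ω, p ω ≤ 0 := Finset.sum_nonpos fun ω _ => hcon ω
      rw [hp.sum_one] at h1
      linarith
    have h1 := (abs_nonneg _).trans (hrel ω hω)
    rcases le_or_gt 0 D with h | h
    · exact h
    · exact absurd h1 (not_le.2 (div_neg_of_neg_of_pos h (by positivity)))
  have hM0 : (0 : ℝ) < 2 ^ M := by positivity
  have hm0 : (0 : ℝ) < 2 ^ (M - x) := by positivity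
  have hmM : (2 : ℝ) ^ (M - x) ≤ 2 ^ M := pow_le_pow_right₀ (by norm_num) (Nat.sub_le _ _)
  obtain ⟨A, hA⟩ : ∃ A : Ω → ℤ, A = fun ω => ⌊(2 : ℝ) ^ M * R0 ω⌋ := ⟨_, rfl⟩
  obtain ⟨A', hA'⟩ : ∃ A' : Ω → ℤ, A' = fun ω => ⌊(2 : ℝ) ^ (M - x) * R0 ω⌋ := ⟨_, rfl⟩
  obtain ⟨N, hN⟩ : ∃ N : Ω → ℤ, N = fun ω => ⌊(2 : ℝ) ^ M * n ω⌋ := ⟨_, rfl⟩
  obtain ⟨N', hN'⟩ : ∃ N' : Ω → ℤ, N' = fun ω => ⌊(2 : ℝ) ^ (M - x) * n ω⌋ := ⟨_, rfl⟩
  have kA : ∀ {ω ω'}, A ω = A ω' → |2 ^ M * R0 ω - 2 ^ M * R0 ω'| ≤ 1 := by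
    intro ω ω' h
    rw [hA] at h
    exact (Int.abs_sub_lt_one_of_floor_eq_floor h).le
  have kA' : ∀ {ω ω'}, A' ω = A' ω' → |2 ^ (M - x) * R0 ω - 2 ^ (M - x) * R0 ω'| ≤ 1 := by
    intro ω ω' h
    rw [hA'] at h
    exact (Int.abs_sub_lt_one_of_floor_eq_floor h).le
  have kN : ∀ {ω ω'}, N ω = N ω' → |2 ^ M * n ω - 2 ^ M * n ω'| ≤ 1 := by
    intro ω ω' h
    rw [hN] at h
    exact (Int.abs_sub_lt_one_of_floor_eq_floor h).le
  have hAA : ∀ {ω ω'}, A ω = A ω' → A' ω = A' ω' := by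
    intro ω ω' h
    rw [hA] at h
    rw [hA']
    exact floor_coarse hx h
  have hg : (fun ω => (⌊(2 : ℝ) ^ (M - x) * R0 ω⌋, (cc ω, W ω))) =
      fun ω => (A' ω, (cc ω, W ω)) := by rw [hA']
  rw [← hA] at hR
  rw [← hA, hg]
  have hnf' : CH p N (fun ω => (N' ω, (xi ω, W ω))) ≤ r := by
    rw [hN, hN']
    exact hnf
  -- the bounds for the differences
  have d1 : ∀ {ω ω' : Ω}, 0 < p ω → 0 < p ω' → cc ω = cc ω' → W ω = W ω' → xi ω = xi ω' →
      |(R0 ω - R0 ω') - (n ω - n ω')| ≤ 2 * D / 2 ^ M := by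
    intro ω ω' hω hω' h1 h2 h3
    have a1 := hrel ω hω
    have a2 := hrel ω' hω'
    rw [← h1, ← h2, ← h3] at a2
    have e : 2 * D / 2 ^ M = D / 2 ^ M + D / 2 ^ M := by ring
    rw [e, abs_le]
    rw [abs_le] at a1 a2
    constructor <;> linarith [a1.1, a1.2, a2.1, a2.2]
  -- (4)
  have c1 : CH p A (fun ω => (N ω, (xi ω, (A' ω, (cc ω, W ω))))) ≤ Real.log (4 * D + 5) := by
    have h1 := CH_le_int h0 hp.sum_one A (fun ω => (N ω, (xi ω, (A' ω, (cc ω, W ω)))))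
      (fun _ => 2 * D + 2) (by
        intro ω ω' hω hω' h
        simp only [Prod.mk.injEq] at h
        obtain ⟨a1, a2, a3, a4, a5⟩ := h
        have b1 := d1 hω hω' a4 a5 a2
        have b2 := kN a1
        have b3 : |2 ^ M * R0 ω - 2 ^ M * R0 ω'| ≤ 2 * D + 1 := by
          have e : 2 ^ M * R0 ω - 2 ^ M * R0 ω' = 2 ^ M * ((R0 ω - R0 ω') - (n ω - n ω')) +
              (2 ^ M * n ω - 2 ^ M * n ω') := by ring
          rw [e]
          refine (abs_add_le _ _).trans (add_le_add ?_ b2)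
          rw [abs_mul, abs_of_pos hM0]
          calc _ ≤ 2 ^ M * (2 * D / 2 ^ M) := mul_le_mul_of_nonneg_left b1 hM0.le
            _ = _ := by field_simp
        rw [hA]
        refine (floor_sub_le_pair _ _).trans ?_
        linarith)
    rw [Ex_const hp.sum_one] at h1
    refine h1.trans (le_of_eq ?_)
    congr 1
    ring
  have c2 : CH p N' (fun ω => (xi ω, (A' ω, (cc ω, W ω)))) ≤ Real.log (4 * D + 5) := by
    have h1 := CH_le_int h0 hp.sum_one N' (fun ω => (xi ω, (A' ω, (cc ω, W ω))))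
      (fun _ => 2 * D + 2) (by
        intro ω ω' hω hω' h
        simp only [Prod.mk.injEq] at h
        obtain ⟨a2, a3, a4, a5⟩ := h
        have b1 := d1 hω hω' a4 a5 a2
        have b2 := kA' a3
        have b3 : |2 ^ (M - x) * n ω - 2 ^ (M - x) * n ω'| ≤ 2 * D + 1 := by
          have e : 2 ^ (M - x) * n ω - 2 ^ (M - x) * n ω' =
              -(2 ^ (M - x) * ((R0 ω - R0 ω') - (n ω - n ω'))) +
              (2 ^ (M - x) * R0 ω - 2 ^ (M - x) * R0 ω') := by ring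
          rw [e]
          refine (abs_add_le _ _).trans (add_le_add ?_ b2)
          rw [abs_neg, abs_mul, abs_of_pos hm0]
          calc _ ≤ 2 ^ M * (2 * D / 2 ^ M) := mul_le_mul hmM b1 (abs_nonneg _) hM0.le
            _ = _ := by field_simp
        rw [hN']
        refine (floor_sub_le_pair _ _).trans ?_
        linarith)
    rw [Ex_const hp.sum_one] at h1
    refine h1.trans (le_of_eq ?_)
    congr 1
    ring
  have c3 : CH p N (fun ω => (N' ω, (xi ω, (A' ω, (cc ω, W ω))))) ≤ r := by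
    refine le_trans (CH_mono_cond h0 fun ω ω' _ _ h => ?_) hnf'
    simp only [Prod.mk.injEq] at h ⊢
    tauto
  have c4 := CH_le_add h0 N N' (fun ω => (xi ω, (A' ω, (cc ω, W ω))))
  have c5 := CH_le_add h0 A N (fun ω => (xi ω, (A' ω, (cc ω, W ω))))
  -- (1)
  have c6 := CH_bayes h0 A xi (fun ω => (A' ω, (cc ω, W ω)))
  -- (2)
  have c7 : CH p xi (fun ω => (A' ω, (cc ω, W ω))) ≤ L := by
    refine le_trans (CH_mono_cond h0 fun ω ω' _ _ h => ?_) hup
    simp only [Prod.mk.injEq] at h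
    exact h.2.2
  -- (3)
  have c8 : CH p xi (fun ω => ((A ω, cc ω), zE ω)) ≤
      CH p xi (fun ω => (A ω, (A' ω, (cc ω, W ω)))) := by
    refine CH_mono_cond h0 fun ω ω' a b h => ?_
    simp only [Prod.mk.injEq] at h ⊢
    exact ⟨h.1.1, hAA h.1.1, h.1.2, hW ω ω' a b h.2⟩
  have c9 := CH_le_add h0 xi (fun ω => (A ω, cc ω)) zE
  have c10 := CH_subadd h0 A cc zE
  linarith

end Pool.D2S0
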